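import Pool.Agent.Helper56.TOF.Goals2
import Pool.Agent.Helper57.RZ.T1

/-! # Project TOF, packet UDF: uniform differentiability -/

set_option autoImplicit false

open Set Filter Topology MeasureTheory Asymptotics

open scoped ContDiff

namespace Pool.Agent.Helper20.TOF

open Pool.Agent.Helper56.RZ Pool.Agent.Helper30.CIR Pool.Agent.Helper56.TOF

theorem ev_fst {X : Type*} [TopologicalSpace X] {x0 : X} {P : X → Prop} (h : ∀ᶠ x in 𝓝 x0, P x) :
    ∀ᶠ p : X × X in 𝓝 (x0, x0), P p.1 :=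
  (continuous_fst.tendsto (x0, x0)).eventually h

theorem ev_snd {X : Type*} [TopologicalSpace X] {x0 : X} {P : X → Prop} (h : ∀ᶠ x in 𝓝 x0, P x) :
    ∀ᶠ p : X × X in 𝓝 (x0, x0), P p.2 :=
  (continuous_snd.tendsto (x0, x0)).eventually h

/-- `C^1` functions are locally uniformly differentiable. -/
theorem loc {a b : ℕ} (G : E a → E b) (z0 : E a) (hG : ContDiffAt ℝ 1 G z0) (ε : ℝ) (hε : 0 < ε) :
    ∀ᶠ p : E a × E a in 𝓝 (z0, z0),
      ‖G p.2 - G p.1 - fderiv ℝ G p.1 (p.2 - p.1)‖ ≤ ε * ‖p.2 - p.1‖ := by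
  have h1 : HasStrictFDerivAt G (fderiv ℝ G z0) z0 := hG.hasStrictFDerivAt (by norm_num)
  have h2 : ContinuousAt (fderiv ℝ G) z0 := by
    have h3 : ContDiffAt ℝ 0 (fderiv ℝ G) z0 := hG.fderiv_right (by norm_num)
    exact h3.continuousAt
  have h4 : ∀ᶠ p : E a × E a in 𝓝 (z0, z0),
      ‖G p.1 - G p.2 - fderiv ℝ G z0 (p.1 - p.2)‖ ≤ ε / 2 * ‖p.1 - p.2‖ :=
    h1.isLittleO.def (by positivity)
  have h5 : ∀ᶠ z in 𝓝 z0, ‖fderiv ℝ G z - fderiv ℝ G z0‖ ≤ ε / 2 := by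
    have h6 : Tendsto (fun z => fderiv ℝ G z - fderiv ℝ G z0) (𝓝 z0) (𝓝 0) := by
      have := h2.tendsto.sub_const (fderiv ℝ G z0)
      rwa [sub_self] at this
    have h7 := h6.norm
    rw [norm_zero] at h7
    exact h7.eventually (ge_mem_nhds (by positivity))
  have h8 : ∀ᶠ p : E a × E a in 𝓝 (z0, z0), ‖fderiv ℝ G p.1 - fderiv ℝ G z0‖ ≤ ε / 2 :=
    ev_fst h5
  filter_upwards [h4, h8] with p h4 h8
  have e : G p.2 - G p.1 - fderiv ℝ G p.1 (p.2 - p.1) =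
      -(G p.1 - G p.2 - fderiv ℝ G z0 (p.1 - p.2)) -
        (fderiv ℝ G p.1 - fderiv ℝ G z0) (p.2 - p.1) := by
    rw [_root_.sub_apply]
    simp only [map_sub]
    abel
  rw [e]
  refine (norm_sub_le _ _).trans ?_
  rw [norm_neg, norm_sub_rev p.2 p.1]
  have h9 := (fderiv ℝ G p.1 - fderiv ℝ G z0).le_opNorm (p.2 - p.1)
  rw [norm_sub_rev p.2 p.1] at h9
  have h10 := norm_nonneg (p.1 - p.2)
  nlinarith [mul_le_mul_of_nonneg_right h8 h10]

theorem gUDF : StmtUDF := by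
  intro N K M m F hM hF ε hε
  -- local statement
  have key : ∀ x0 ∈ M, ∃ U : Set (E K), IsOpen U ∧ x0 ∈ U ∧ ∀ x ∈ M, ∀ y ∈ M, x ∈ U → y ∈ U →
      ‖F y - F x - der M F x (y - x)‖ ≤ ε * ‖y - x‖ := by
    intro x0 hx0
    obtain ⟨c, hcW, -⟩ := hM.chart x0 hx0
    set z0 := c.φ x0 with hz0
    have hz0V : z0 ∈ c.V := c.mapsφ x0 ⟨hx0, hcW⟩
    have hψz0 : c.ψ z0 = x0 := c.right x0 ⟨hx0, hcW⟩
    have hVn : c.V ∈ 𝓝 z0 := c.openV.mem_nhds hz0V
    have hWn : c.W ∈ 𝓝 x0 := c.openW.mem_nhds hcW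
    have hφ : ContDiffAt ℝ 1 c.φ x0 := (c.smoothφ.contDiffAt hWn).of_le (by simp)
    have hψ : ContDiffAt ℝ 1 c.ψ z0 := (c.smoothψ.contDiffAt hVn).of_le (by simp)
    have hGV : ContDiffOn ℝ 1 (F ∘ c.ψ) c.V :=
      hF.comp (c.smoothψ.of_le (by simp)) fun z hz => (c.mapsψ z hz).1
    have hG : ContDiffAt ℝ 1 (F ∘ c.ψ) z0 := hGV.contDiffAt hVn
    -- bounds
    have hb1 : ∀ᶠ z in 𝓝 z0, ‖fderiv ℝ (F ∘ c.ψ) z‖ ≤ ‖fderiv ℝ (F ∘ c.ψ) z0‖ + 1 := by
      have h3 : ContDiffAt ℝ 0 (fderiv ℝ (F ∘ c.ψ)) z0 := hG.fderiv_right (by norm_num)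
      exact h3.continuousAt.norm.eventually (ge_mem_nhds (by linarith))
    have hb2 : ∀ᶠ x in 𝓝 x0, ‖fderiv ℝ c.φ x‖ ≤ ‖fderiv ℝ c.φ x0‖ + 1 := by
      have h3 : ContDiffAt ℝ 0 (fderiv ℝ c.φ) x0 := hφ.fderiv_right (by norm_num)
      exact h3.continuousAt.norm.eventually (ge_mem_nhds (by linarith))
    set A := ‖fderiv ℝ (F ∘ c.ψ) z0‖ + 1 with hA
    set B := ‖fderiv ℝ c.φ x0‖ + 1 with hB
    have hA0 : 0 < A := by positivity
    have hB0 : 0 < B := by positivity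
    -- the Lipschitz bound for φ
    have hL : ∀ᶠ p : E K × E K in 𝓝 (x0, x0), ‖c.φ p.2 - c.φ p.1‖ ≤ (B + 1) * ‖p.2 - p.1‖ := by
      have h1 := loc c.φ x0 hφ 1 one_pos
      have h2 : ∀ᶠ p : E K × E K in 𝓝 (x0, x0), ‖fderiv ℝ c.φ p.1‖ ≤ B :=
        ev_fst hb2
      filter_upwards [h1, h2] with p h1 h2
      have h3 := norm_add_le (c.φ p.2 - c.φ p.1 - fderiv ℝ c.φ p.1 (p.2 - p.1))
        (fderiv ℝ c.φ p.1 (p.2 - p.1))
      rw [sub_add_cancel] at h3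
      have h4 := (fderiv ℝ c.φ p.1).le_opNorm (p.2 - p.1)
      have h5 := norm_nonneg (p.2 - p.1)
      nlinarith [mul_le_mul_of_nonneg_right h2 h5]
    set ε1 := ε / ((B + 1) * (1 + A * B)) with hε1
    have hε1p : 0 < ε1 := by positivity
    have hp1 := loc (F ∘ c.ψ) z0 hG ε1 hε1p
    have hp2 := loc c.ψ z0 hψ ε1 hε1p
    have hφc : Tendsto (fun p : E K × E K => (c.φ p.1, c.φ p.2)) (𝓝 (x0, x0)) (𝓝 (z0, z0)) := by
      have h1 : ContinuousAt c.φ x0 := hφ.continuousAt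
      have h2 : Tendsto (fun p : E K × E K => c.φ p.1) (𝓝 (x0, x0)) (𝓝 z0) :=
        h1.tendsto.comp (continuous_fst.tendsto (x0, x0))
      have h3 : Tendsto (fun p : E K × E K => c.φ p.2) (𝓝 (x0, x0)) (𝓝 z0) :=
        h1.tendsto.comp (continuous_snd.tendsto (x0, x0))
      rw [nhds_prod_eq (x := z0)]
      exact h2.prodMk h3
    have hb1' : ∀ᶠ x in 𝓝 x0, ‖fderiv ℝ (F ∘ c.ψ) (c.φ x)‖ ≤ A :=
      hφ.continuousAt.tendsto.eventually hb1
    have hev : ∀ᶠ p : E K × E K in 𝓝 (x0, x0), ∀ x y, p = (x, y) → x ∈ M → y ∈ M →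
        ‖F y - F x - der M F x (y - x)‖ ≤ ε * ‖y - x‖ := by
      have e1 : ∀ᶠ p : E K × E K in 𝓝 (x0, x0), p.1 ∈ c.W := ev_fst hWn
      have e2 : ∀ᶠ p : E K × E K in 𝓝 (x0, x0), p.2 ∈ c.W := ev_snd hWn
      have e3 : ∀ᶠ p : E K × E K in 𝓝 (x0, x0), ‖fderiv ℝ (F ∘ c.ψ) (c.φ p.1)‖ ≤ A :=
        ev_fst hb1'
      have e4 : ∀ᶠ p : E K × E K in 𝓝 (x0, x0), ‖fderiv ℝ c.φ p.1‖ ≤ B :=
        ev_fst hb2
      filter_upwards [e1, e2, e3, e4, hL, hφc.eventually hp1, hφc.eventually hp2] with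
        p e1 e2 e3 e4 hL hp1 hp2 x y hxy hx hy
      subst hxy
      simp only at e1 e2 e3 e4 hL hp1 hp2
      have hxz : c.ψ (c.φ x) = x := c.right x ⟨hx, e1⟩
      have hyz : c.ψ (c.φ y) = y := c.right y ⟨hy, e2⟩
      have hzV : c.φ x ∈ c.V := c.mapsφ x ⟨hx, e1⟩
      -- chain rule
      have hFx : DifferentiableWithinAt ℝ F M x := (hF x hx).differentiableWithinAt (by norm_num)
      have hψd : HasFDerivAt c.ψ (fderiv ℝ c.ψ (c.φ x)) (c.φ x) :=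
        ((c.smoothψ.contDiffAt (c.openV.mem_nhds hzV)).differentiableAt (by simp)).hasFDerivAt
      have ht1 := Pool.Agent.Helper57.RZ.t1 N K M c (c.φ x) hzV
      rw [hxz] at ht1
      have hcomp : (fderivWithin ℝ F M x).comp (fderiv ℝ c.ψ (c.φ x)) =
          fderiv ℝ (F ∘ c.ψ) (c.φ x) := by
        have h1 : HasFDerivWithinAt F (fderivWithin ℝ F M x) M (c.ψ (c.φ x)) := by
          rw [hxz]; exact hFx.hasFDerivWithinAt
        have h2 := h1.comp (c.φ x) (hψd.hasFDerivWithinAt (s := c.V))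
          (fun z hz => (c.mapsψ z hz).1)
        have h3 := h2.hasFDerivAt (c.openV.mem_nhds hzV)
        exact h3.fderiv.symm
      have hder : ∀ v, der M F x (fderiv ℝ c.ψ (c.φ x) v) = fderiv ℝ (F ∘ c.ψ) (c.φ x) v := by
        intro v
        have h1 := congrArg (fun L : E N →L[ℝ] E K => L v) ht1.2.1
        simp only [ContinuousLinearMap.comp_apply] at h1
        have h2 := congrArg (fun L : E N →L[ℝ] E K => L v) hcomp
        simp only [ContinuousLinearMap.comp_apply] at h2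
        rw [← h2]
        change fderivWithin ℝ F M x (Pi M x (fderiv ℝ c.ψ (c.φ x) v)) = _
        rw [h1]
      have hnorm : ∀ v, ‖der M F x v‖ ≤ A * B * ‖v‖ := by
        intro v
        have h1 := congrArg (fun L : E K →L[ℝ] E K => L v) ht1.2.2
        simp only [ContinuousLinearMap.comp_apply] at h1
        have h2 : der M F x v = der M F x (Pi M x v) := by
          change fderivWithin ℝ F M x (Pi M x v) = fderivWithin ℝ F M x (Pi M x (Pi M x v))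
          rw [Pool.Agent.Helper57.RZ.Pi_self (Pool.Agent.Helper57.RZ.Pi_mem M x v)]
        rw [h2, ← h1, hder]
        have h3 := (fderiv ℝ (F ∘ c.ψ) (c.φ x)).le_opNorm (fderiv ℝ c.φ x (Pi M x v))
        have h4 := (fderiv ℝ c.φ x).le_opNorm (Pi M x v)
        have h5 : ‖Pi M x v‖ ≤ ‖v‖ := by
          have h6 := (Pi M x).le_opNorm v
          have h7 : ‖Pi M x‖ ≤ 1 := Submodule.starProjection_norm_le _
          have h8 := norm_nonneg v
          nlinarith [mul_le_mul_of_nonneg_right h7 h8]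
        calc _ ≤ ‖fderiv ℝ (F ∘ c.ψ) (c.φ x)‖ * ‖fderiv ℝ c.φ x (Pi M x v)‖ := h3
          _ ≤ A * (B * ‖v‖) := by
            gcongr
            calc _ ≤ ‖fderiv ℝ c.φ x‖ * ‖Pi M x v‖ := h4
              _ ≤ B * ‖v‖ := by gcongr
          _ = A * B * ‖v‖ := by ring
      have he : F y - F x - der M F x (y - x) =
          ((F ∘ c.ψ) (c.φ y) - (F ∘ c.ψ) (c.φ x) -
            fderiv ℝ (F ∘ c.ψ) (c.φ x) (c.φ y - c.φ x)) -
          der M F x (c.ψ (c.φ y) - c.ψ (c.φ x) - fderiv ℝ c.ψ (c.φ x) (c.φ y - c.φ x)) := by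
        rw [map_sub (der M F x) (c.ψ (c.φ y) - c.ψ (c.φ x)), hder]
        simp only [Function.comp_apply, hxz, hyz]
        abel
      rw [he]
      refine (norm_sub_le _ _).trans ?_
      have h1 := hnorm (c.ψ (c.φ y) - c.ψ (c.φ x) - fderiv ℝ c.ψ (c.φ x) (c.φ y - c.φ x))
      calc _ ≤ ε1 * ‖c.φ y - c.φ x‖ + A * B * (ε1 * ‖c.φ y - c.φ x‖) := by
            refine add_le_add hp1 (h1.trans ?_)
            gcongr
        _ = ε1 * (1 + A * B) * ‖c.φ y - c.φ x‖ := by ring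
        _ ≤ ε1 * (1 + A * B) * ((B + 1) * ‖y - x‖) := by gcongr
        _ = ε * ‖y - x‖ := by
            rw [hε1]
            field_simp
    rw [nhds_prod_eq, Filter.eventually_prod_self_iff'] at hev
    obtain ⟨t, ht, h⟩ := hev
    obtain ⟨U, hUt, hU, hxU⟩ := mem_nhds_iff.1 ht
    exact ⟨U, hU, hxU, fun x hx y hy hxU hyU => h x (hUt hxU) y (hUt hyU) x y rfl hx hy⟩
  choose! U hU hxU hUU using key
  obtain ⟨δ, hδ, h⟩ := lebesgue_number_lemma_of_metric (s := M) (c := fun x : M => U x)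
    hM.compact (fun x => hU x x.2) (fun x hx => mem_iUnion.2 ⟨⟨x, hx⟩, hxU x hx⟩)
  refine ⟨δ / 2, by positivity, fun x hx y hy hxy => ?_⟩
  obtain ⟨i, hi⟩ := h x hx
  refine hUU i i.2 x hx y hy (hi (Metric.mem_ball_self hδ)) (hi ?_)
  rw [Metric.mem_ball, dist_eq_norm]
  linarith

end Pool.Agent.Helper20.TOF
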